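import Pool.Agent.Helper16.LD.Dual

/-!
# On a surface with V - E + F = 2 every even set of edges is a boundary (project LD, MP_409f7f_co)
-/

namespace Pool.Agent.Helper16.LD

open Pool.Agent.Helper17.UF

theorem mem_bdF {P : Finset Cube} (hman : Man P) (X : Finset Face) {s : Face × Dir}
    (hs : s ∈ sideF P) : eg s.1 s.2 ∈ bdF P X ↔ ¬ (s.1 ∈ X ↔ (nu P s).1 ∈ X) := by
  unfold bdF
  rw [Finset.mem_image]
  constructor
  · rintro ⟨s', hs', he⟩
    rw [Finset.mem_filter] at hs'
    rcases (eg_fiber hman hs hs'.1).1 he with h | h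
    · subst h
      intro hc
      exact hs'.2.2 (hc.1 hs'.2.1)
    · subst h
      rw [nu_nu hs] at hs'
      intro hc
      exact hs'.2.2 (hc.2 hs'.2.1)
  · intro hc
    by_cases h : s.1 ∈ X
    · refine ⟨s, Finset.mem_filter.2 ⟨hs, h, fun h' => hc ⟨fun _ => h', fun _ => h⟩⟩, rfl⟩
    · have h' : (nu P s).1 ∈ X := by
        by_contra h'
        exact hc ⟨fun h1 => absurd h1 h, fun h1 => absurd h1 h'⟩
      refine ⟨nu P s, Finset.mem_filter.2 ⟨nu_mem hs, h', ?_⟩, eg_nu hs⟩
      rw [nu_nu hs]
      exact h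

theorem bdF_subset {P : Finset Cube} (X : Finset Face) : bdF P X ⊆ edgeF P := by
  intro e he
  unfold bdF at he
  rw [Finset.mem_image] at he
  obtain ⟨s, hs, rfl⟩ := he
  exact Finset.mem_image_of_mem _ (Finset.mem_filter.1 hs).1

theorem mem_edgeF {P : Finset Cube} {e : Sym2 Cube} :
    e ∈ edgeF P ↔ ∃ s ∈ sideF P, eg s.1 s.2 = e := by
  unfold edgeF
  rw [Finset.mem_image]

/-- The boundary of a symmetric difference. -/
theorem bdF_symmDiff {P : Finset Cube} (hman : Man P) (X Y : Finset Face) :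
    bdF P (symmDiff X Y) = symmDiff (bdF P X) (bdF P Y) := by
  ext e
  by_cases he : e ∈ edgeF P
  · obtain ⟨s, hs, rfl⟩ := mem_edgeF.1 he
    rw [Finset.mem_symmDiff, mem_bdF hman _ hs, mem_bdF hman _ hs, mem_bdF hman _ hs,
      Finset.mem_symmDiff, Finset.mem_symmDiff]
    tauto
  · constructor
    · intro h
      exact absurd (bdF_subset _ h) he
    · intro h
      rw [Finset.mem_symmDiff] at h
      rcases h with h | h
      · exact absurd (bdF_subset _ h.1) he
      · exact absurd (bdF_subset _ h.1) he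

/-- Two sets of faces with the same boundary are equal or complementary. -/
theorem bdF_inj {P : Finset Cube} (hman : Man P) (hsurf : SurfConn P) {X Y : Finset Face}
    (hX : X ⊆ faceF P) (hY : Y ⊆ faceF P) (h : bdF P X = bdF P Y) :
    Y = X ∨ Y = faceF P \ X := by
  classical
  have hstep : ∀ A, IsFace P A → ∀ B, Relation.ReflTransGen
      (fun C D => ∃ t, Dir.perp C.2 t = true ∧ D = (nbr P C t).1) A B →
      ((A ∈ X ↔ A ∈ Y) ↔ (B ∈ X ↔ B ∈ Y)) := by
    intro A hA B hAB
    induction hAB with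
    | refl => rfl
    | @tail b' c' hab hbc ih =>
      obtain ⟨t, ht, rfl⟩ := hbc
      have hb' : IsFace P b' := face_of_reach hA hab
      rw [ih]
      have hs : ((b', t) : Face × Dir) ∈ sideF P := mem_sideF.2 ⟨hb', ht⟩
      have h1 := mem_bdF hman X hs
      have h2 := mem_bdF hman Y hs
      rw [h] at h1
      have h3 : (nu P (b', t)).1 = (nbr P b' t).1 := rfl
      rw [h3] at h1 h2
      simp only at h1 h2
      tauto
  by_cases hall : ∀ A ∈ faceF P, (A ∈ X ↔ A ∈ Y)
  · left
    ext A
    by_cases hA : A ∈ faceF P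
    · exact (hall A hA).symm
    · exact ⟨fun h => absurd (hY h) hA, fun h => absurd (hX h) hA⟩
  · right
    push Not at hall
    obtain ⟨A0, hA0, hne⟩ := hall
    have hne' : ¬ (A0 ∈ X ↔ A0 ∈ Y) := by tauto
    ext B
    rw [Finset.mem_sdiff]
    by_cases hB : B ∈ faceF P
    · have := hstep A0 (mem_faceF.1 hA0) B (hsurf A0 B (mem_faceF.1 hA0) (mem_faceF.1 hB))
      tauto
    · exact ⟨fun h => absurd (hY h) hB, fun h => absurd h.1 hB⟩

/-- The number of boundaries is at least `2 ^ (F - 1)`. -/
theorem card_bd {P : Finset Cube} (hman : Man P) (hsurf : SurfConn P) :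
    2 ^ (faceF P).card ≤ 2 * (((faceF P).powerset).image (bdF P)).card := by
  classical
  rw [← Finset.card_powerset]
  refine Finset.card_le_mul_card_image _ 2 ?_
  intro Z hZ
  rw [Finset.mem_image] at hZ
  obtain ⟨X, hX, rfl⟩ := hZ
  have hsub : ((faceF P).powerset).filter (fun Y => bdF P Y = bdF P X) ⊆
      {X, faceF P \ X} := by
    intro Y hY
    rw [Finset.mem_filter] at hY
    rw [Finset.mem_insert, Finset.mem_singleton]
    exact bdF_inj hman hsurf (Finset.mem_powerset.1 hX) (Finset.mem_powerset.1 hY.1) hY.2.symm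
  exact (Finset.card_le_card hsub).trans Finset.card_le_two

/-- An edge set has even degree everywhere. -/
def EvenSet (Z : Finset (Sym2 Cube)) : Prop := ∀ v, Even ((Z.filter (fun e => v ∈ e)).card)

theorem EvenSet.sd {Z W : Finset (Sym2 Cube)} (hZ : EvenSet Z) (hW : EvenSet W) :
    EvenSet (symmDiff Z W) := by
  classical
  intro v
  have h1 : (symmDiff Z W).filter (fun e => v ∈ e) =
      symmDiff (Z.filter (fun e => v ∈ e)) (W.filter (fun e => v ∈ e)) := by
    ext e
    simp only [Finset.mem_filter, Finset.mem_symmDiff]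
    tauto
  rw [h1]
  have hA := hZ v
  have hB := hW v
  set A := Z.filter (fun e => v ∈ e)
  set B := W.filter (fun e => v ∈ e)
  have h2 : (symmDiff A B).card = (A \ B).card + (B \ A).card := by
    rw [← Finset.card_union_of_disjoint]
    · rfl
    · rw [Finset.disjoint_left]
      intro a ha hb
      exact (Finset.mem_sdiff.1 hb).2 (Finset.mem_sdiff.1 ha).1
  have h3 := Finset.card_sdiff_add_card_inter A B
  have h4 := Finset.card_sdiff_add_card_inter B A
  rw [Finset.inter_comm] at h4
  rw [← h3] at hA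
  rw [← h4] at hB
  rw [h2]
  rw [Nat.even_add] at hA hB ⊢
  rw [hA, hB]

/-- The corner of a face behind a side. -/
theorem corner_step (d t t' : Dir) (ht : Dir.perp d t = true) (ht' : Dir.perp d t' = true) :
    t' = t ∨ t' = (Dir.cross d t).neg ∨ t' = (Dir.cross d (Dir.cross d t).neg).neg ∨
      t' = (Dir.cross d (Dir.cross d (Dir.cross d t).neg).neg).neg := by
  revert d t t'
  decide

/-- Two vertices of the surface are joined by edges. -/
def ERel (P : Finset Cube) : Cube → Cube → Prop := fun x y => s(x, y) ∈ edgeF P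

theorem ERel.symm' {P : Finset Cube} {x y : Cube} (h : ERel P x y) : ERel P y x := by
  unfold ERel at h ⊢
  rw [Sym2.eq_swap]
  exact h

theorem reach_symm {P : Finset Cube} {x y : Cube} (h : Relation.ReflTransGen (ERel P) x y) :
    Relation.ReflTransGen (ERel P) y x := by
  induction h with
  | refl => exact Relation.ReflTransGen.refl
  | tail _ h2 ih => exact Relation.ReflTransGen.head h2.symm' ih

theorem reach_side {P : Finset Cube} {A : Face} {t : Dir} (hA : IsFace P A)
    (ht : Dir.perp A.2 t = true) :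
    ERel P (cnr A t (Dir.cross A.2 t)) (cnr A t (Dir.cross A.2 t).neg) := by
  unfold ERel
  exact Finset.mem_image.2 ⟨(A, t), mem_sideF.2 ⟨hA, ht⟩, rfl⟩

theorem reach_next {P : Finset Cube} {A : Face} {t : Dir} (hA : IsFace P A)
    (ht : Dir.perp A.2 t = true) :
    Dir.perp A.2 (Dir.cross A.2 t).neg = true ∧
    ERel P (cnr A t (Dir.cross A.2 t))
      (cnr A (Dir.cross A.2 t).neg (Dir.cross A.2 (Dir.cross A.2 t).neg)) := by
  have key : ∀ d t : Dir, Dir.perp d t = true →
      Dir.perp d (Dir.cross d t).neg = true ∧ Dir.cross d (Dir.cross d t).neg = t := by decide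
  obtain ⟨k1, k2⟩ := key _ _ ht
  refine ⟨k1, ?_⟩
  rw [k2, cnr_comm A (Dir.cross A.2 t).neg t]
  exact reach_side hA ht

theorem reach_face {P : Finset Cube} {A : Face} (hA : IsFace P A) {t t' : Dir}
    (ht : Dir.perp A.2 t = true) (ht' : Dir.perp A.2 t' = true) :
    Relation.ReflTransGen (ERel P) (cnr A t (Dir.cross A.2 t)) (cnr A t' (Dir.cross A.2 t')) := by
  obtain ⟨p1, r1⟩ := reach_next hA ht
  obtain ⟨p2, r2⟩ := reach_next hA p1
  obtain ⟨_, r3⟩ := reach_next hA p2
  rcases corner_step A.2 t t' ht ht' with h | h | h | h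
  · rw [h]
  · rw [h]
    exact Relation.ReflTransGen.single r1
  · rw [h]
    exact (Relation.ReflTransGen.single r1).tail r2
  · rw [h]
    exact ((Relation.ReflTransGen.single r1).tail r2).tail r3

theorem reach_all {P : Finset Cube} {A : Face} (hA : IsFace P A) {t : Dir}
    (ht : Dir.perp A.2 t = true) {B : Face}
    (hAB : Relation.ReflTransGen
      (fun C D => ∃ t, Dir.perp C.2 t = true ∧ D = (nbr P C t).1) A B) :
    ∀ t', Dir.perp B.2 t' = true →
      Relation.ReflTransGen (ERel P) (cnr A t (Dir.cross A.2 t)) (cnr B t' (Dir.cross B.2 t')) := by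
  induction hAB with
  | refl => exact fun t' ht' => reach_face hA ht ht'
  | @tail b' c' hab hbc ih =>
    obtain ⟨u, hu, rfl⟩ := hbc
    have hb' : IsFace P b' := face_of_reach hA hab
    intro t' ht'
    have h1 := ih u hu
    have h2 : Relation.ReflTransGen (ERel P) (cnr b' u (Dir.cross b'.2 u))
        (cnr (nbr P b' u).1 (nbr P b' u).2 (Dir.cross (nbr P b' u).1.2 (nbr P b' u).2)) := by
      rw [cross_nbr hu, cnr_nbr]
      exact Relation.ReflTransGen.single (reach_side hb' hu)
    exact (h1.trans h2).trans (reach_face (face_nbr hb') (perp_nbr' hu) ht')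

/-- The graph of all edges is connected. -/
theorem eGraph_connected {P : Finset Cube} (hsurf : SurfConn P) (hne : (vertF P).Nonempty) :
    (eGraph P (edgeF P)).Connected := by
  obtain ⟨v0, hv0⟩ := hne
  have : Nonempty {p // p ∈ vertF P} := ⟨⟨v0, hv0⟩⟩
  refine ⟨fun p q => ?_⟩
  obtain ⟨p, hp⟩ := p
  obtain ⟨q, hq⟩ := q
  have hp' := hp
  have hq' := hq
  unfold vertF at hp' hq'
  rw [Finset.mem_image] at hp' hq'
  obtain ⟨s, hs, rfl⟩ := hp'
  obtain ⟨s', hs', rfl⟩ := hq'
  have h1 := mem_sideF.1 hs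
  have h2 := mem_sideF.1 hs'
  have hr := reach_all h1.1 h1.2 (hsurf s.1 s'.1 h1.1 h2.1) s'.2 h2.2
  obtain ⟨_, hr'⟩ := eGraph_reach (Finset.Subset.refl _) hp hr
  exact hr'

theorem edgeF_not_diag {P : Finset Cube} : ∀ e ∈ edgeF P, ¬ e.IsDiag := by
  intro e he
  unfold edgeF at he
  rw [Finset.mem_image] at he
  obtain ⟨s, -, rfl⟩ := he
  exact eg_not_diag _ _

/-- An even set of edges of a forest is empty. -/
theorem even_forest {P : Finset Cube} {Z : Finset (Sym2 Cube)} (hZE : Z ⊆ edgeF P)
    (hev : EvenSet Z) (hac : (eGraph P Z).IsAcyclic) : Z = ∅ := by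
  classical
  by_contra hn
  obtain ⟨e, he⟩ := Finset.nonempty_iff_ne_empty.2 hn
  have heE : e ∈ edgeF P := hZE he
  induction e using Sym2.ind with
  | _ p q =>
    have hp : p ∈ vertF P := mem_vertF_of_mem_eg heE (Sym2.mem_mk_left _ _)
    have hq : q ∈ vertF P := mem_vertF_of_mem_eg heE (Sym2.mem_mk_right _ _)
    have hpq : p ≠ q := by
      intro h
      exact edgeF_not_diag _ heE (Sym2.mk_isDiag_iff.2 h)
    obtain ⟨v, w1, hw1, huniq⟩ := exists_leaf (eGraph P Z) hac
      (p := ⟨p, hp⟩) (q := ⟨q, hq⟩) ⟨fun h => hpq (congrArg Subtype.val h), he⟩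
    have h0 := hev v.1
    have h1 : Z.filter (fun e => v.1 ∈ e) = {s(v.1, w1.1)} := by
      ext e
      rw [Finset.mem_filter, Finset.mem_singleton]
      constructor
      · rintro ⟨h2, h3⟩
        obtain ⟨y, rfl⟩ := Sym2.mem_iff_exists.1 h3
        have hyE := hZE h2
        have hy : y ∈ vertF P := mem_vertF_of_mem_eg hyE (Sym2.mem_mk_right _ _)
        have hvy : v ≠ ⟨y, hy⟩ := by
          intro h
          exact edgeF_not_diag _ hyE (Sym2.mk_isDiag_iff.2 (congrArg Subtype.val h))
        have := huniq ⟨y, hy⟩ ⟨hvy, h2⟩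
        rw [← this]
      · rintro rfl
        exact ⟨hw1.2, Sym2.mem_mk_left _ _⟩
    rw [h1, Finset.card_singleton] at h0
    exact absurd h0 (by decide)

/-- A set of `V - 1` edges that contains no nonempty even set. -/
theorem exists_tree {P : Finset Cube} (hsurf : SurfConn P) (hne : (vertF P).Nonempty) :
    ∃ T : Finset (Sym2 Cube), T ⊆ edgeF P ∧ T.card + 1 = (vertF P).card ∧
      ∀ Z ⊆ T, EvenSet Z → Z = ∅ := by
  classical
  obtain ⟨T, hT, htree⟩ := (eGraph_connected hsurf hne).exists_isTree_le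
  have hfin : T.edgeSet.Finite := Set.toFinite _
  let S : Finset (Sym2 Cube) := hfin.toFinset.image (Sym2.map Subtype.val)
  have hS : ∀ e, e ∈ S ↔ ∃ f ∈ T.edgeSet, Sym2.map Subtype.val f = e := by
    intro e
    simp only [S, Finset.mem_image, Set.Finite.mem_toFinset]
  refine ⟨S, ?_, ?_, ?_⟩
  · intro e he
    obtain ⟨f, hf, rfl⟩ := (hS e).1 he
    induction f using Sym2.ind with
    | _ p q =>
      rw [SimpleGraph.mem_edgeSet] at hf
      rw [Sym2.map_mk]
      exact (hT hf).2
  · have h1 : S.card = T.edgeSet.ncard := by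
      rw [Finset.card_image_of_injective _ (Sym2.map.injective Subtype.val_injective),
        ← Set.ncard_eq_toFinset_card]
    have h2 := (SimpleGraph.isTree_iff_connected_and_card.1 htree).2
    have hV : Nat.card {p // p ∈ vertF P} = (vertF P).card := by
      rw [Nat.card_eq_fintype_card, Fintype.card_coe]
    rw [h1]
    have h5 : Nat.card T.edgeSet = T.edgeSet.ncard := rfl
    omega
  · intro Z hZ hev
    have hZE : Z ⊆ edgeF P := by
      intro e he
      obtain ⟨f, hf, rfl⟩ := (hS e).1 (hZ he)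
      induction f using Sym2.ind with
      | _ p q =>
        rw [SimpleGraph.mem_edgeSet] at hf
        rw [Sym2.map_mk]
        exact (hT hf).2
    refine even_forest hZE hev (htree.isAcyclic.anti ?_)
    rintro ⟨p, hp⟩ ⟨q, hq⟩ h
    obtain ⟨h1, h2⟩ := h
    obtain ⟨f, hf, he⟩ := (hS _).1 (hZ h2)
    induction f using Sym2.ind with
    | _ a b =>
      rw [SimpleGraph.mem_edgeSet] at hf
      rw [Sym2.map_mk, Sym2.eq_iff] at he
      rcases he with ⟨e1, e2⟩ | ⟨e1, e2⟩
      · have : a = ⟨p, hp⟩ := Subtype.ext e1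
        have : b = ⟨q, hq⟩ := Subtype.ext e2
        subst a b
        exact hf
      · have : a = ⟨q, hq⟩ := Subtype.ext e1
        have : b = ⟨p, hp⟩ := Subtype.ext e2
        subst a b
        exact hf.symm

/-- **H1.**  On a connected surface with `V - E + F = 2` every even set of edges is the boundary
of a set of faces. -/
theorem even_is_bdF {P : Finset Cube} (hman : Man P) (hsurf : SurfConn P)
    (heuler : (vertF P).card + (faceF P).card = (edgeF P).card + 2)
    {Z : Finset (Sym2 Cube)} (hZ : Z ⊆ edgeF P) (hev : EvenSet Z) :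
    ∃ X ⊆ faceF P, bdF P X = Z := by
  classical
  by_cases hvne : (vertF P).Nonempty
  swap
  · refine ⟨∅, Finset.empty_subset _, ?_⟩
    have h1 : edgeF P = ∅ := by
      by_contra hn
      obtain ⟨e, he⟩ := Finset.nonempty_iff_ne_empty.2 hn
      induction e using Sym2.ind with
      | _ p q => exact hvne ⟨p, mem_vertF_of_mem_eg he (Sym2.mem_mk_left _ _)⟩
    have h2 : Z = ∅ := Finset.subset_empty.1 (h1 ▸ hZ)
    rw [h2]
    exact Finset.subset_empty.1 (h1 ▸ bdF_subset _)
  obtain ⟨T, hTE, hTc, hT⟩ := exists_tree hsurf hvne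
  let Ev : Finset (Finset (Sym2 Cube)) := (edgeF P).powerset.filter EvenSet
  let Bd : Finset (Finset (Sym2 Cube)) := ((faceF P).powerset).image (bdF P)
  have hBE : Bd ⊆ Ev := by
    intro W hW
    obtain ⟨X, _, rfl⟩ := Finset.mem_image.1 hW
    exact Finset.mem_filter.2 ⟨Finset.mem_powerset.2 (bdF_subset _), even_bdF hman X⟩
  have hEv : Ev.card ≤ 2 ^ ((edgeF P).card - T.card) := by
    rw [← Finset.card_sdiff_of_subset hTE, ← Finset.card_powerset]
    refine Finset.card_le_card_of_injOn (fun W => W \ T) ?_ ?_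
    · intro W hW
      have hW' := (Finset.mem_filter.1 hW).1
      exact Finset.mem_powerset.2 (Finset.sdiff_subset_sdiff (Finset.mem_powerset.1 hW')
        (Finset.Subset.refl _))
    · intro W hW W' hW' h
      simp only at h
      have h1 := (Finset.mem_filter.1 hW).2
      have h2 := (Finset.mem_filter.1 hW').2
      have h3 : symmDiff W W' = ∅ := by
        refine hT _ ?_ (h1.sd h2)
        intro e he
        by_contra heT
        have hiff : e ∈ W ↔ e ∈ W' := by
          have h4 : e ∈ W \ T ↔ e ∈ W' \ T := by rw [h]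
          rw [Finset.mem_sdiff, Finset.mem_sdiff] at h4
          tauto
        rw [Finset.mem_symmDiff] at he
        tauto
      exact symmDiff_eq_bot.1 h3
  have hBd := card_bd hman hsurf
  have hcard : Ev.card ≤ Bd.card := by
    have h1 : (faceF P).card = (edgeF P).card - T.card + 1 := by
      have := Finset.card_le_card hTE
      omega
    have h2 : 2 ^ (faceF P).card = 2 * 2 ^ ((edgeF P).card - T.card) := by
      rw [h1, pow_succ, mul_comm]
    have h3 : 2 * 2 ^ ((edgeF P).card - T.card) ≤ 2 * Bd.card := by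
      rw [← h2]
      exact hBd
    exact hEv.trans (Nat.le_of_mul_le_mul_left h3 (by norm_num))
  have heq : Bd = Ev := Finset.eq_of_subset_of_card_le hBE hcard
  have hZin : Z ∈ Bd := by
    rw [heq]
    exact Finset.mem_filter.2 ⟨Finset.mem_powerset.2 hZ, hev⟩
  obtain ⟨X, hX, rfl⟩ := Finset.mem_image.1 hZin
  exact ⟨X, Finset.mem_powerset.1 hX, rfl⟩

end Pool.Agent.Helper16.LD
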