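import Pool.Agent.Helper16.LD.Surf

/-!
# Counting, parity and duality on the boundary surface (project LD, MP_409f7f_co)
-/

namespace Pool.Agent.Helper16.LD

open Pool.Agent.Helper17.UF

/-- The boundary faces. -/
def faceF (P : Finset Cube) : Finset Face :=
  (P ×ˢ (Finset.univ : Finset Dir)).filter (fun A => A.1 + A.2.vec ∉ P)

/-- The sides of the boundary faces. -/
def sideF (P : Finset Cube) : Finset (Face × Dir) :=
  (faceF P ×ˢ (Finset.univ : Finset Dir)).filter (fun s => Dir.perp s.1.2 s.2 = true)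

/-- The edges of the boundary surface. -/
def edgeF (P : Finset Cube) : Finset (Sym2 Cube) :=
  (sideF P).image (fun s => eg s.1 s.2)

/-- The vertices of the boundary surface. -/
def vertF (P : Finset Cube) : Finset Cube :=
  (sideF P).image (fun s => cnr s.1 s.2 (Dir.cross s.1.2 s.2))

theorem mem_faceF {P : Finset Cube} {A : Face} : A ∈ faceF P ↔ IsFace P A := by
  unfold faceF IsFace
  rw [Finset.mem_filter, Finset.mem_product]
  simp

theorem mem_sideF {P : Finset Cube} {s : Face × Dir} :
    s ∈ sideF P ↔ IsFace P s.1 ∧ Dir.perp s.1.2 s.2 = true := by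
  unfold sideF
  rw [Finset.mem_filter, Finset.mem_product, mem_faceF]
  simp

theorem card_sideF (P : Finset Cube) : (sideF P).card = 4 * (faceF P).card := by
  have key : ∀ d : Dir, ((Finset.univ : Finset Dir).filter
      (fun t => Dir.perp d t = true)).card = 4 := by decide
  have h : sideF P = (faceF P).biUnion (fun A => ((Finset.univ : Finset Dir).filter
      (fun t => Dir.perp A.2 t = true)).image (fun t => (A, t))) := by
    ext ⟨A, t⟩
    rw [mem_sideF]
    simp only [Finset.mem_biUnion, Finset.mem_image, Finset.mem_filter, Finset.mem_univ, true_and,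
      mem_faceF]
    constructor
    · rintro ⟨h1, h2⟩
      exact ⟨A, h1, t, h2, rfl⟩
    · rintro ⟨A', h1, t', h2, h3⟩
      rw [Prod.mk.injEq] at h3
      obtain ⟨rfl, rfl⟩ := h3
      exact ⟨h1, h2⟩
  rw [h, Finset.card_biUnion]
  · have : ∀ A ∈ faceF P, (((Finset.univ : Finset Dir).filter
        (fun t => Dir.perp A.2 t = true)).image (fun t => (A, t))).card = 4 := by
      intro A _
      rw [Finset.card_image_of_injective _ (fun a b hab => (Prod.mk.inj hab).2), key]
    rw [Finset.sum_congr rfl this, Finset.sum_const, smul_eq_mul, mul_comm]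
  · intro A _ B _ hAB
    rw [Function.onFun, Finset.disjoint_left]
    intro s hs hs'
    rw [Finset.mem_image] at hs hs'
    obtain ⟨t, -, rfl⟩ := hs
    obtain ⟨t', -, h'⟩ := hs'
    exact hAB (Prod.mk.inj h').1.symm

/-- The other side of the same edge. -/
def nu (P : Finset Cube) (s : Face × Dir) : Face × Dir := nbr P s.1 s.2

theorem nu_mem {P : Finset Cube} {s : Face × Dir} (h : s ∈ sideF P) : nu P s ∈ sideF P := by
  rw [mem_sideF] at h ⊢
  exact ⟨face_nbr h.1, perp_nbr' h.2⟩

theorem nu_nu {P : Finset Cube} {s : Face × Dir} (h : s ∈ sideF P) : nu P (nu P s) = s :=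
  nbr_nbr (mem_sideF.1 h).1

theorem nu_ne {P : Finset Cube} {s : Face × Dir} (h : s ∈ sideF P) : nu P s ≠ s := by
  intro hc
  exact nbr_ne (mem_sideF.1 h).2 (congrArg Prod.fst hc)

theorem eg_nu {P : Finset Cube} {s : Face × Dir} (h : s ∈ sideF P) :
    eg (nu P s).1 (nu P s).2 = eg s.1 s.2 := eg_nbr (mem_sideF.1 h).2

theorem eg_fiber {P : Finset Cube} (hman : Man P) {s s' : Face × Dir} (h : s ∈ sideF P)
    (h' : s' ∈ sideF P) : eg s'.1 s'.2 = eg s.1 s.2 ↔ s' = s ∨ s' = nu P s := by
  have h1 := mem_sideF.1 h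
  have h2 := mem_sideF.1 h'
  constructor
  · intro he
    exact eg_inj hman h1.1 h2.1 h1.2 h2.2 he.symm
  · rintro (rfl | rfl)
    · rfl
    · exact eg_nu h

/-- Every edge has exactly two sides. -/
theorem card_edgeF {P : Finset Cube} (hman : Man P) : (edgeF P).card = 2 * (faceF P).card := by
  have h1 : (sideF P).card = 2 * (edgeF P).card := by
    rw [Finset.card_eq_sum_card_image (fun s : Face × Dir => eg s.1 s.2) (sideF P)]
    have : ∀ e ∈ (sideF P).image (fun s : Face × Dir => eg s.1 s.2),
        ((sideF P).filter (fun s => eg s.1 s.2 = e)).card = 2 := by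
      intro e he
      rw [Finset.mem_image] at he
      obtain ⟨s, hs, rfl⟩ := he
      have : (sideF P).filter (fun s' => eg s'.1 s'.2 = eg s.1 s.2) = {s, nu P s} := by
        ext s'
        rw [Finset.mem_filter, Finset.mem_insert, Finset.mem_singleton]
        constructor
        · rintro ⟨a, b⟩
          exact (eg_fiber hman hs a).1 b
        · rintro (rfl | rfl)
          · exact ⟨hs, rfl⟩
          · exact ⟨nu_mem hs, eg_nu hs⟩
      rw [this, Finset.card_pair (nu_ne hs).symm]
    rw [Finset.sum_congr rfl this, Finset.sum_const, smul_eq_mul, mul_comm]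
    rfl
  have h2 := card_sideF P
  omega

theorem cnr_mem_vertF {P : Finset Cube} {A : Face} {t w : Dir} (hA : IsFace P A)
    (ht : Dir.perp A.2 t = true) (hw : w = Dir.cross A.2 t ∨ w = (Dir.cross A.2 t).neg) :
    cnr A t w ∈ vertF P := by
  unfold vertF
  rw [Finset.mem_image]
  rcases hw with rfl | rfl
  · exact ⟨(A, t), mem_sideF.2 ⟨hA, ht⟩, rfl⟩
  · have key : ∀ d t : Dir, Dir.perp d t = true →
        Dir.perp d (Dir.cross d t).neg = true ∧ Dir.cross d (Dir.cross d t).neg = t := by decide
    obtain ⟨k1, k2⟩ := key _ _ ht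
    refine ⟨(A, (Dir.cross A.2 t).neg), mem_sideF.2 ⟨hA, k1⟩, ?_⟩
    simp only
    rw [k2, cnr_comm]

theorem mem_vertF_of_mem_eg {P : Finset Cube} {e : Sym2 Cube} {v : Cube} (he : e ∈ edgeF P)
    (hv : v ∈ e) : v ∈ vertF P := by
  unfold edgeF at he
  rw [Finset.mem_image] at he
  obtain ⟨s, hs, rfl⟩ := he
  have h := mem_sideF.1 hs
  unfold eg at hv
  rw [Sym2.mem_iff] at hv
  rcases hv with rfl | rfl
  · exact cnr_mem_vertF h.1 h.2 (Or.inl rfl)
  · exact cnr_mem_vertF h.1 h.2 (Or.inr rfl)

theorem eg_not_diag (A : Face) (t : Dir) : ¬ (eg A t).IsDiag := by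
  unfold eg
  rw [Sym2.mk_isDiag_iff]
  have key : ∀ u : Dir, up u ≠ up u.neg := by decide
  intro h
  simp only [cnr] at h
  exact key _ (add_left_cancel (add_left_cancel h))

/-- A vertex lies on no or on two sides of a face. -/
theorem card_sides_at (d : Dir) (w : Cube) :
    Even ((Finset.univ : Finset Dir).filter (fun t => Dir.perp d t = true ∧
      (w = up d + up t + up (Dir.cross d t) ∨ w = up d + up t + up (Dir.cross d t).neg))).card := by
  by_cases h : ∃ t : Dir, Dir.perp d t = true ∧ (w = up d + up t + up (Dir.cross d t) ∨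
      w = up d + up t + up (Dir.cross d t).neg)
  · obtain ⟨t, ht, h⟩ := h
    have key : ∀ d t : Dir, Dir.perp d t = true → ((Finset.univ : Finset Dir).filter
        (fun t' => Dir.perp d t' = true ∧
        (up d + up t + up (Dir.cross d t) = up d + up t' + up (Dir.cross d t') ∨
          up d + up t + up (Dir.cross d t) = up d + up t' + up (Dir.cross d t').neg))).card = 2 ∧
        ((Finset.univ : Finset Dir).filter (fun t' => Dir.perp d t' = true ∧
        (up d + up t + up (Dir.cross d t).neg = up d + up t' + up (Dir.cross d t') ∨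
          up d + up t + up (Dir.cross d t).neg =
            up d + up t' + up (Dir.cross d t').neg))).card = 2 := by
      decide
    obtain ⟨k1, k2⟩ := key d t ht
    rcases h with rfl | rfl
    · rw [k1]; exact even_two
    · rw [k2]; exact even_two
  · rw [Finset.filter_false_of_mem, Finset.card_empty]
    · exact Even.zero
    · intro t _ ht
      exact h ⟨t, ht⟩

theorem mem_eg_iff {A : Face} {t : Dir} {v : Cube} : v ∈ eg A t ↔
    v - A.1 = up A.2 + up t + up (Dir.cross A.2 t) ∨
    v - A.1 = up A.2 + up t + up (Dir.cross A.2 t).neg := by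
  unfold eg
  rw [Sym2.mem_iff]
  simp only [cnr]
  rw [sub_eq_iff_eq_add', sub_eq_iff_eq_add']

/-- The number of sides at a vertex that belong to a set of faces is even. -/
theorem even_sides {P : Finset Cube} (X : Finset Face) (v : Cube) :
    Even ((sideF P).filter (fun s => s.1 ∈ X ∧ v ∈ eg s.1 s.2)).card := by
  have h : (sideF P).filter (fun s => s.1 ∈ X ∧ v ∈ eg s.1 s.2) =
      (faceF P ∩ X).biUnion (fun A => ((Finset.univ : Finset Dir).filter
      (fun t => Dir.perp A.2 t = true ∧ (v - A.1 = up A.2 + up t + up (Dir.cross A.2 t) ∨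
        v - A.1 = up A.2 + up t + up (Dir.cross A.2 t).neg))).image (fun t => (A, t))) := by
    ext ⟨A, t⟩
    rw [Finset.mem_filter, mem_sideF]
    simp only [Finset.mem_biUnion, Finset.mem_image, Finset.mem_filter, Finset.mem_univ, true_and,
      Finset.mem_inter, mem_faceF]
    rw [mem_eg_iff]
    constructor
    · rintro ⟨⟨h1, h2⟩, h3, h4⟩
      exact ⟨A, ⟨h1, h3⟩, t, ⟨h2, h4⟩, rfl⟩
    · rintro ⟨A', ⟨h1, h3⟩, t', ⟨h2, h4⟩, h5⟩
      rw [Prod.mk.injEq] at h5
      obtain ⟨rfl, rfl⟩ := h5
      exact ⟨⟨h1, h2⟩, h3, h4⟩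
  rw [h, Finset.card_biUnion]
  · refine Finset.even_sum _ (fun A _ => ?_)
    rw [Finset.card_image_of_injective _ (fun a b hab => (Prod.mk.inj hab).2)]
    exact card_sides_at A.2 (v - A.1)
  · intro A _ B _ hAB
    rw [Function.onFun, Finset.disjoint_left]
    intro s hs hs'
    rw [Finset.mem_image] at hs hs'
    obtain ⟨t, -, rfl⟩ := hs
    obtain ⟨t', -, h'⟩ := hs'
    exact hAB (Prod.mk.inj h').1.symm

/-- A set with a fixed point free involution has an even number of elements. -/
theorem even_of_involution {α : Type*} [DecidableEq α] (s : Finset α) (f : α → α)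
    (h1 : ∀ a ∈ s, f a ∈ s) (h2 : ∀ a ∈ s, f (f a) = a) (h3 : ∀ a ∈ s, f a ≠ a) :
    Even s.card := by
  have h : ∑ _a ∈ s, (1 : ZMod 2) = 0 :=
    Finset.sum_involution (fun a _ => f a) (fun a _ => by decide) (fun a ha _ => h3 a ha)
      (fun a ha => h1 a ha) (fun a ha => h2 a ha)
  rw [Finset.sum_const, nsmul_eq_mul, mul_one] at h
  rwa [ZMod.natCast_eq_zero_iff_even] at h

/-- The boundary edges of a set of faces. -/
def bdF (P : Finset Cube) (X : Finset Face) : Finset (Sym2 Cube) :=
  ((sideF P).filter (fun s => s.1 ∈ X ∧ (nu P s).1 ∉ X)).image (fun s => eg s.1 s.2)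

/-- The boundary of a set of faces has even degree everywhere. -/
theorem even_bdF {P : Finset Cube} (hman : Man P) (X : Finset Face) (v : Cube) :
    Even ((bdF P X).filter (fun e => v ∈ e)).card := by
  have h0 : (bdF P X).filter (fun e => v ∈ e) =
      ((sideF P).filter (fun s => (s.1 ∈ X ∧ v ∈ eg s.1 s.2) ∧ (nu P s).1 ∉ X)).image
        (fun s => eg s.1 s.2) := by
    ext e
    simp only [bdF, Finset.mem_filter, Finset.mem_image]
    constructor
    · rintro ⟨⟨s, ⟨h1, h2, h3⟩, rfl⟩, h4⟩
      exact ⟨s, ⟨h1, ⟨h2, h4⟩, h3⟩, rfl⟩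
    · rintro ⟨s, ⟨h1, ⟨h2, h4⟩, h3⟩, rfl⟩
      exact ⟨⟨s, ⟨h1, h2, h3⟩, rfl⟩, h4⟩
  rw [h0, Finset.card_image_of_injOn]
  · have h1 := even_sides (P := P) X v
    have h2 : Even ((sideF P).filter
        (fun s => (s.1 ∈ X ∧ v ∈ eg s.1 s.2) ∧ (nu P s).1 ∈ X)).card := by
      refine even_of_involution _ (nu P) ?_ ?_ ?_
      · intro s hs
        rw [Finset.mem_filter] at hs ⊢
        refine ⟨nu_mem hs.1, ⟨hs.2.2, ?_⟩, ?_⟩
        · rw [eg_nu hs.1]; exact hs.2.1.2
        · rw [nu_nu hs.1]; exact hs.2.1.1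
      · intro s hs
        exact nu_nu (Finset.mem_filter.1 hs).1
      · intro s hs
        exact nu_ne (Finset.mem_filter.1 hs).1
    have h3 := Finset.card_filter_add_card_filter_not
      (s := (sideF P).filter (fun s => s.1 ∈ X ∧ v ∈ eg s.1 s.2))
      (p := fun s => (nu P s).1 ∈ X)
    rw [Finset.filter_filter, Finset.filter_filter] at h3
    rw [← h3, Nat.even_add] at h1
    exact h1.1 h2
  · intro s hs s' hs' hse
    simp only [Finset.coe_filter, Set.mem_ofPred_eq] at hs hs'
    rcases (eg_fiber hman hs'.1 hs.1).1 hse with h | h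
    · exact h
    · exfalso
      rw [h] at hs
      exact hs'.2.2 hs.2.1.1

/-- A finite graph without cycles that has an edge has a leaf. -/
theorem exists_leaf {V : Type*} [Finite V] (H : SimpleGraph V) (hH : H.IsAcyclic) {p q : V}
    (h : H.Adj p q) : ∃ v, ∃! w, H.Adj v w := by
  classical
  have := Fintype.ofFinite V
  let c := H.connectedComponentMk p
  have hT : c.toSimpleGraph.IsTree := hH.isTree_connectedComponent c
  have hp : p ∈ c := rfl
  have hq : q ∈ c := SimpleGraph.ConnectedComponent.sound h.symm.reachable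
  have : Nontrivial c := ⟨⟨p, hp⟩, ⟨q, hq⟩, fun hc => h.ne (Subtype.ext_iff.1 hc)⟩
  have hF : Fintype c := Fintype.ofFinite _
  obtain ⟨v, hv⟩ := hT.exists_vert_degree_one_of_nontrivial
  rw [SimpleGraph.degree_eq_one_iff_existsUnique_adj] at hv
  obtain ⟨w, hw, hu⟩ := hv
  refine ⟨v.1, w.1, (SimpleGraph.ConnectedComponent.toSimpleGraph_adj c v.2 w.2).1 hw, ?_⟩
  intro y hy
  have hyc : y ∈ c := by
    have h1 : H.connectedComponentMk v.1 = c := v.2
    have h2 : H.connectedComponentMk y = H.connectedComponentMk v.1 :=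
      SimpleGraph.ConnectedComponent.sound hy.symm.reachable
    exact h2.trans h1
  have := hu ⟨y, hyc⟩ ((SimpleGraph.ConnectedComponent.toSimpleGraph_adj c v.2 hyc).2 hy)
  exact congrArg Subtype.val this

end Pool.Agent.Helper16.LD
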