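import Pool.Agent.Helper16.LD.Count

/-!
# Duality: two trees of cut edges leave a connected surface (project LD, MP_409f7f_co)
-/

namespace Pool.Agent.Helper16.LD

open Pool.Agent.Helper17.UF

/-- The boundary surface is connected. -/
def SurfConn (P : Finset Cube) : Prop :=
  ∀ A B, IsFace P A → IsFace P B →
    Relation.ReflTransGen (fun C D => ∃ t, Dir.perp C.2 t = true ∧ D = (nbr P C t).1) A B

/-- The graph of a set of edges on the vertices of the surface. -/
def eGraph (P : Finset Cube) (c : Finset (Sym2 Cube)) : SimpleGraph {p // p ∈ vertF P} where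
  Adj p q := p ≠ q ∧ s(p.1, q.1) ∈ c
  symm := ⟨fun p q h => ⟨h.1.symm, by rw [Sym2.eq_swap]; exact h.2⟩⟩
  loopless := ⟨fun p h => h.1 rfl⟩

theorem card_eGraph (P : Finset Cube) (c : Finset (Sym2 Cube)) :
    (eGraph P c).edgeSet.ncard ≤ c.card := by
  rw [← Set.ncard_coe_finset]
  refine Set.ncard_le_ncard_of_injOn (Sym2.map Subtype.val) ?_ ?_ (Finset.finite_toSet c)
  · intro e he
    induction e using Sym2.ind with
    | _ p q =>
      rw [SimpleGraph.mem_edgeSet] at he
      rw [Sym2.map_mk]
      exact he.2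
  · exact (Sym2.map.injective Subtype.val_injective).injOn

theorem eGraph_reach {P : Finset Cube} {c : Finset (Sym2 Cube)} (hc : c ⊆ edgeF P) {p q : Cube}
    (hp : p ∈ vertF P) (h : Relation.ReflTransGen (fun x y => s(x, y) ∈ c) p q) :
    ∃ hq : q ∈ vertF P, (eGraph P c).Reachable ⟨p, hp⟩ ⟨q, hq⟩ := by
  induction h with
  | refl => exact ⟨hp, SimpleGraph.Reachable.refl _⟩
  | @tail b c' _ hbc ih =>
    obtain ⟨hb, hr⟩ := ih
    have hq : c' ∈ vertF P := mem_vertF_of_mem_eg (hc hbc) (Sym2.mem_mk_right b c')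
    refine ⟨hq, ?_⟩
    by_cases hbc' : b = c'
    · subst hbc'
      exact hr
    · refine hr.trans (SimpleGraph.Adj.reachable ?_)
      exact ⟨fun h => hbc' (congrArg Subtype.val h), hbc⟩

/-- If the cut edges number two less than the vertices and join all vertices of equal sign, then
they form a forest. -/
theorem cut_acyclic {P : Finset Cube} {c : Finset (Sym2 Cube)} (hc : c ⊆ edgeF P)
    (hcard : c.card + 2 = (vertF P).card) (sg : Cube → Bool)
    (hcol : ∀ p ∈ vertF P, ∀ q ∈ vertF P, sg p = sg q →
      Relation.ReflTransGen (fun x y => s(x, y) ∈ c) p q)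
    {b w : Cube} (hb : b ∈ vertF P) (hw : w ∈ vertF P) (hbw : sg b ≠ sg w) :
    (eGraph P c).IsAcyclic := by
  classical
  set G := eGraph P c with hG
  let b' : {p // p ∈ vertF P} := ⟨b, hb⟩
  let w' : {p // p ∈ vertF P} := ⟨w, hw⟩
  have hne : b' ≠ w' := by
    intro h
    exact hbw (congrArg sg (congrArg Subtype.val h))
  let T : SimpleGraph {p // p ∈ vertF P} := G ⊔ SimpleGraph.edge b' w'
  have hGT : G ≤ T := le_sup_left
  have hreach : ∀ p : {p // p ∈ vertF P}, T.Reachable p b' := by
    rintro ⟨p, hp⟩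
    by_cases h : sg p = sg b
    · obtain ⟨_, hr⟩ := eGraph_reach hc hp (hcol p hp b hb h)
      exact hr.mono hGT
    · have h' : sg p = sg w := by
        revert h hbw
        cases sg p <;> cases sg b <;> cases sg w <;> simp
      obtain ⟨_, hr⟩ := eGraph_reach hc hp (hcol p hp w hw h')
      refine (hr.mono hGT).trans (SimpleGraph.Adj.reachable ?_)
      have : (SimpleGraph.edge b' w').Adj w' b' := by
        rw [SimpleGraph.edge_adj]
        exact ⟨Or.inr ⟨rfl, rfl⟩, hne.symm⟩
      exact (le_sup_right : SimpleGraph.edge b' w' ≤ T) this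
  have hconn : T.Connected := by
    have : Nonempty {p // p ∈ vertF P} := ⟨b'⟩
    exact ⟨fun p q => (hreach p).trans (hreach q).symm⟩
  have hle : Nat.card T.edgeSet ≤ c.card + 1 := by
    have h1 : T.edgeSet ⊆ G.edgeSet ∪ {s(b', w')} := by
      intro e he
      rw [SimpleGraph.edgeSet_sup] at he
      rcases he with he | he
      · exact Or.inl he
      · right
        rw [SimpleGraph.edgeSet_edge_of_ne hne] at he
        exact he
    have h2 : T.edgeSet.ncard ≤ (G.edgeSet ∪ {s(b', w')}).ncard :=
      Set.ncard_le_ncard h1 (Set.toFinite _)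
    have h3 : (G.edgeSet ∪ {s(b', w')}).ncard ≤ G.edgeSet.ncard + 1 := by
      refine (Set.ncard_union_le _ _).trans ?_
      rw [Set.ncard_singleton]
    have h4 := card_eGraph P c
    have h5 : Nat.card T.edgeSet = T.edgeSet.ncard := rfl
    rw [h5]
    exact (h2.trans h3).trans (Nat.add_le_add_right h4 1)
  have hV : Nat.card {p // p ∈ vertF P} = (vertF P).card := by
    rw [Nat.card_eq_fintype_card, Fintype.card_coe]
  have hge := hconn.card_vert_le_card_edgeSet_add_one
  have hT : T.IsTree := SimpleGraph.isTree_iff_connected_and_card.2 ⟨hconn, by omega⟩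
  exact hT.isAcyclic.anti hGT

theorem face_of_reach {P : Finset Cube} {A B : Face} (hA : IsFace P A)
    (h : Relation.ReflTransGen
      (fun C D => ∃ t, Dir.perp C.2 t = true ∧ D = (nbr P C t).1) A B) : IsFace P B := by
  induction h with
  | refl => exact hA
  | tail _ h2 ih =>
    obtain ⟨t, _, rfl⟩ := h2
    exact face_nbr ih

/-- The complement of the cut edges is connected: a nonempty set of faces that is closed under
crossing uncut sides consists of all faces. -/
theorem dual_connected {P : Finset Cube} (hman : Man P) (hsurf : SurfConn P)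
    {c : Finset (Sym2 Cube)} (hc : c ⊆ edgeF P)
    (hcard : c.card + 2 = (vertF P).card) (sg : Cube → Bool)
    (hcol : ∀ p ∈ vertF P, ∀ q ∈ vertF P, sg p = sg q →
      Relation.ReflTransGen (fun x y => s(x, y) ∈ c) p q)
    {b w : Cube} (hb : b ∈ vertF P) (hw : w ∈ vertF P) (hbw : sg b ≠ sg w)
    {X : Finset Face} (hne : ∃ A ∈ X, IsFace P A)
    (hcl : ∀ s ∈ sideF P, s.1 ∈ X → eg s.1 s.2 ∉ c → (nu P s).1 ∈ X) :
    ∀ A, IsFace P A → A ∈ X := by
  classical
  have hac := cut_acyclic hc hcard sg hcol hb hw hbw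
  have hsub : bdF P X ⊆ c := by
    intro e he
    unfold bdF at he
    rw [Finset.mem_image] at he
    obtain ⟨s, hs, rfl⟩ := he
    rw [Finset.mem_filter] at hs
    by_contra h
    exact hs.2.2 (hcl s hs.1 hs.2.1 h)
  have hempty : bdF P X = ∅ := by
    by_contra hn
    obtain ⟨e, he⟩ := Finset.nonempty_iff_ne_empty.2 hn
    have hH : (eGraph P (bdF P X)).IsAcyclic := by
      refine hac.anti ?_
      intro p q h
      exact ⟨h.1, hsub h.2⟩
    have heE : e ∈ edgeF P := hc (hsub he)
    induction e using Sym2.ind with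
    | _ p q =>
      have hp : p ∈ vertF P := mem_vertF_of_mem_eg heE (Sym2.mem_mk_left _ _)
      have hq : q ∈ vertF P := mem_vertF_of_mem_eg heE (Sym2.mem_mk_right _ _)
      have hnd : ∀ e ∈ edgeF P, ¬ e.IsDiag := by
        intro e he
        unfold edgeF at he
        rw [Finset.mem_image] at he
        obtain ⟨s, -, rfl⟩ := he
        exact eg_not_diag _ _
      have hpq : p ≠ q := by
        intro h
        exact hnd _ heE (Sym2.mk_isDiag_iff.2 h)
      obtain ⟨v, w1, hw1, huniq⟩ := exists_leaf (eGraph P (bdF P X)) hH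
        (p := ⟨p, hp⟩) (q := ⟨q, hq⟩) ⟨fun h => hpq (congrArg Subtype.val h), he⟩
      have hev := even_bdF hman X v.1
      have h1 : (bdF P X).filter (fun e => v.1 ∈ e) = {s(v.1, w1.1)} := by
        ext e
        rw [Finset.mem_filter, Finset.mem_singleton]
        constructor
        · rintro ⟨h2, h3⟩
          obtain ⟨y, rfl⟩ := Sym2.mem_iff_exists.1 h3
          have hyE := hc (hsub h2)
          have hy : y ∈ vertF P := mem_vertF_of_mem_eg hyE (Sym2.mem_mk_right _ _)
          have hvy : v ≠ ⟨y, hy⟩ := by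
            intro h
            exact hnd _ hyE (Sym2.mk_isDiag_iff.2 (congrArg Subtype.val h))
          have := huniq ⟨y, hy⟩ ⟨hvy, h2⟩
          rw [← this]
        · rintro rfl
          exact ⟨hw1.2, Sym2.mem_mk_left _ _⟩
      rw [h1, Finset.card_singleton] at hev
      exact absurd hev (by decide)
  obtain ⟨A0, hA0, hF0⟩ := hne
  intro A hA
  have hstep : ∀ B, IsFace P B → Relation.ReflTransGen
      (fun C D => ∃ t, Dir.perp C.2 t = true ∧ D = (nbr P C t).1) A0 B →
      IsFace P B ∧ B ∈ X := by
    intro B hB h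
    induction h with
    | refl => exact ⟨hF0, hA0⟩
    | @tail b' c' hab hbc ih =>
      obtain ⟨t, ht, rfl⟩ := hbc
      have hb' : IsFace P b' := face_of_reach hF0 hab
      obtain ⟨_, hbX⟩ := ih hb'
      refine ⟨face_nbr hb', ?_⟩
      by_contra hn
      have : eg b' t ∈ bdF P X := by
        unfold bdF
        rw [Finset.mem_image]
        exact ⟨(b', t), Finset.mem_filter.2 ⟨mem_sideF.2 ⟨hb', ht⟩, hbX, hn⟩, rfl⟩
      rw [hempty] at this
      exact absurd this (Finset.notMem_empty _)
  exact (hstep A hA (hsurf A0 A hF0 hA)).2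

end Pool.Agent.Helper16.LD
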