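import Pool.Agent.Helper16.LD.Dual
import Pool.Agent.Helper84.LD.Col

/-!
# Coloured direction fields on surfaces with Euler characteristic two (project LD, MP_409f7f_co)

If equally coloured vertices are connected by cut edges, then the curve is connected and the
surface has an edge unfolding.
-/

namespace Pool.Agent.Helper84.LD

open Pool.Agent.Helper17.UF Pool.Agent.Helper16.LD Relation

variable {P : Finset Cube} {σ : Bool} {e : Face → Dir} {c : Cube → Bool}

/-- The side of `A` in the heading `h` is glued in the net of the columns: a matching north or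
south side, or a bichromatic lateral side. -/
def Gl (P : Finset Cube) (σ : Bool) (e : Face → Dir) (c : Cube → Bool) (A : Face) :
    Hd → Prop
  | Hd.N => Cmp P σ e A Hd.N
  | Hd.S => Cmp P σ e A Hd.S
  | Hd.E => c (cr σ e A Hd.S Hd.E) = false ∧ c (cr σ e A Hd.N Hd.E) = true
  | Hd.W => c (cr σ e A Hd.S Hd.W) = false ∧ c (cr σ e A Hd.N Hd.W) = true

/-- The edge of the face `A` in the heading `h`. -/
def edg (σ : Bool) (e : Face → Dir) (A : Face) (h : Hd) : Sym2 Cube :=
  s(cr σ e A h h.left, cr σ e A h h.left.opp)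

/-- The edge `ε` is a cut edge of the field. -/
def CutE (P : Finset Cube) (σ : Bool) (e : Face → Dir) (c : Cube → Bool) (ε : Sym2 Cube) : Prop :=
  ∃ A h, IsFace P A ∧ ¬ Gl P σ e c A h ∧ ε = edg σ e A h

theorem up_eq_pp (t : Dir) : up t = pp t := by cases t <;> rfl

theorem cnr_eq_crn (A : Face) (t w : Dir) : cnr A t w = crn A t w := by
  unfold cnr crn
  rw [up_eq_pp, up_eq_pp, up_eq_pp]
  abel

theorem eg_eq_edg {A : Face} (hp : Dir.perp A.2 (e A) = true) (h : Hd) :
    eg A (dA σ e A h) = edg σ e A h := by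
  have key : ∀ (σ : Bool) (d e : Dir), Dir.perp d e = true → ∀ h : Hd,
      (Dir.cross d (dirH σ d e h) = dirH σ d e h.left ∧
        (Dir.cross d (dirH σ d e h)).neg = dirH σ d e h.left.opp) ∨
      (Dir.cross d (dirH σ d e h) = dirH σ d e h.left.opp ∧
        (Dir.cross d (dirH σ d e h)).neg = dirH σ d e h.left) := by decide
  unfold eg edg cr dA
  rw [cnr_eq_crn, cnr_eq_crn]
  rcases key σ A.2 (e A) hp h with ⟨h1, h2⟩ | ⟨h1, h2⟩
  · rw [h2, h1]
  · rw [h2, h1, Sym2.eq_swap]

theorem left_opp_left : ∀ h : Hd, h.left.opp.opp = h.left := by decide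

/-- The neighbour over a glued side is glued from the other side. -/
theorem IsField.gl_nb (H : IsField P σ e c) {A : Face} (hA : IsFace P A) {h : Hd}
    (hg : Gl P σ e c A h) : Cmp P σ e A h ∧ Gl P σ e c (nb P σ e A h) h.opp := by
  cases h with
  | N => exact ⟨hg, (Cmp.back hA (H.perp A hA) hg).1⟩
  | S => exact ⟨hg, (Cmp.back hA (H.perp A hA) hg).1⟩
  | E =>
    have hc := H.cmpE hA hg.1 hg.2
    obtain ⟨e1, e2⟩ := H.east hA hc
    exact ⟨hc, by
      change c (cr σ e (nb P σ e A Hd.E) Hd.S Hd.W) = false ∧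
        c (cr σ e (nb P σ e A Hd.E) Hd.N Hd.W) = true
      rw [e1, e2]; exact hg⟩
  | W =>
    have hc := H.cmpW hA hg.1 hg.2
    obtain ⟨k1, k2⟩ := Cmp.back hA (H.perp A hA) hc
    simp only [Hd.opp] at k1 k2
    have hD : IsFace P (nb P σ e A Hd.W) := isFace_nbr hA
    obtain ⟨e1, e2⟩ := H.east hD k1
    rw [k2] at e1 e2
    exact ⟨hc, by
      change c (cr σ e (nb P σ e A Hd.W) Hd.S Hd.E) = false ∧
        c (cr σ e (nb P σ e A Hd.W) Hd.N Hd.E) = true
      rw [← e1, ← e2]; exact hg⟩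

/-- A side is glued. -/
def GlS (P : Finset Cube) (σ : Bool) (e : Face → Dir) (c : Cube → Bool) (s : Face × Dir) : Prop :=
  ∃ h : Hd, s.2 = dA σ e s.1 h ∧ Gl P σ e c s.1 h

theorem IsField.glS_nu (H : IsField P σ e c) {s : Face × Dir} (hs : s ∈ sideF P)
    (hg : GlS P σ e c s) : GlS P σ e c (nu P s) := by
  obtain ⟨A, t⟩ := s
  obtain ⟨h, h1, h2⟩ := hg
  simp only at h1 h2
  have hA : IsFace P A := (mem_sideF.1 hs).1
  obtain ⟨h3, h4⟩ := H.gl_nb hA h2
  have h5 : nu P (A, t) = (nb P σ e A h, dA σ e (nb P σ e A h) h.opp) := by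
    unfold nu
    simp only
    rw [h1]
    exact Prod.ext rfl h3
  rw [h5]
  exact ⟨h.opp, rfl, h4⟩

theorem IsField.glS_nu_iff (H : IsField P σ e c) {s : Face × Dir} (hs : s ∈ sideF P) :
    GlS P σ e c (nu P s) ↔ GlS P σ e c s := by
  constructor
  · intro h
    have := H.glS_nu (nu_mem hs) h
    rwa [nu_nu hs] at this
  · exact H.glS_nu hs

/-- Sets of sides that are closed under `nu` have two sides for each edge. -/
theorem card_image_eg (hman : Man P) {S : Finset (Face × Dir)} (hS : S ⊆ sideF P)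
    (hcl : ∀ s ∈ S, nu P s ∈ S) : S.card = 2 * (S.image (fun s => eg s.1 s.2)).card := by
  rw [Finset.card_eq_sum_card_image (fun s : Face × Dir => eg s.1 s.2) S]
  have : ∀ ε ∈ S.image (fun s : Face × Dir => eg s.1 s.2),
      (S.filter (fun s => eg s.1 s.2 = ε)).card = 2 := by
    intro ε he
    rw [Finset.mem_image] at he
    obtain ⟨s, hs, rfl⟩ := he
    have : S.filter (fun s' => eg s'.1 s'.2 = eg s.1 s.2) = {s, nu P s} := by
      ext s'
      rw [Finset.mem_filter, Finset.mem_insert, Finset.mem_singleton]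
      constructor
      · rintro ⟨a, b⟩
        exact (eg_fiber hman (hS hs) (hS a)).1 b
      · rintro (rfl | rfl)
        · exact ⟨hs, rfl⟩
        · exact ⟨hcl s hs, eg_nu (hS hs)⟩
    rw [this, Finset.card_pair (nu_ne (hS hs)).symm]
  rw [Finset.sum_congr rfl this, Finset.sum_const, smul_eq_mul, mul_comm]

open Classical in
/-- The faces with a glued side in the heading `h`. -/
noncomputable def gF (P : Finset Cube) (σ : Bool) (e : Face → Dir) (c : Cube → Bool) (h : Hd) :
    Finset Face := (faceF P).filter (fun A => Gl P σ e c A h)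

theorem mem_gF {A : Face} {h : Hd} : A ∈ gF P σ e c h ↔ IsFace P A ∧ Gl P σ e c A h := by
  classical
  unfold gF
  rw [Finset.mem_filter, mem_faceF]

theorem IsField.nb_N_S (H : IsField P σ e c) {A : Face} (hA : A ∈ gF P σ e c Hd.N) :
    nb P σ e A Hd.N ∈ gF P σ e c Hd.S ∧ nb P σ e (nb P σ e A Hd.N) Hd.S = A := by
  obtain ⟨h1, h2⟩ := mem_gF.1 hA
  obtain ⟨k1, k2⟩ := Cmp.back h1 (H.perp A h1) h2
  exact ⟨mem_gF.2 ⟨isFace_nbr h1, k1⟩, k2⟩

theorem IsField.nb_S_N (H : IsField P σ e c) {A : Face} (hA : A ∈ gF P σ e c Hd.S) :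
    nb P σ e A Hd.S ∈ gF P σ e c Hd.N ∧ nb P σ e (nb P σ e A Hd.S) Hd.N = A := by
  obtain ⟨h1, h2⟩ := mem_gF.1 hA
  obtain ⟨k1, k2⟩ := Cmp.back h1 (H.perp A h1) h2
  exact ⟨mem_gF.2 ⟨isFace_nbr h1, k1⟩, k2⟩

/-- Telescoping along the columns for one of the two lateral sides. -/
theorem count_side (F GN GS : Finset Face) (hN : GN ⊆ F) (hS : GS ⊆ F)
    (i j : Face → Face) (hi : ∀ A ∈ GN, i A ∈ GS ∧ j (i A) = A)
    (hj : ∀ A ∈ GS, j A ∈ GN ∧ i (j A) = A) (p q : Face → Bool)
    (hmono : ∀ A ∈ F, p A = true → q A = true)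
    (htop : ∀ A ∈ F, A ∉ GN → q A = true) (hbot : ∀ A ∈ F, A ∉ GS → p A = false)
    (hstep : ∀ A ∈ GN, p (i A) = q A) :
    (F.filter (fun A => p A = false ∧ q A = true)).card + GN.card = F.card := by
  classical
  have h1 : ∑ A ∈ F, (q A).toNat = ∑ A ∈ F, (p A).toNat +
      (F.filter (fun A => p A = false ∧ q A = true)).card := by
    rw [Finset.card_filter, ← Finset.sum_add_distrib]
    refine Finset.sum_congr rfl (fun A hA => ?_)
    have := hmono A hA
    cases hp : p A <;> cases hq : q A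
    · simp
    · simp
    · rw [hp, hq] at this
      exact absurd (this rfl) (by decide)
    · simp
  have h2 : ∑ A ∈ F, (q A).toNat = ∑ A ∈ GN, (q A).toNat + (F \ GN).card := by
    rw [← Finset.sum_sdiff hN, add_comm]
    congr 1
    rw [Finset.card_eq_sum_ones]
    refine Finset.sum_congr rfl (fun A hA => ?_)
    rw [Finset.mem_sdiff] at hA
    rw [htop A hA.1 hA.2]
    rfl
  have h3 : ∑ A ∈ F, (p A).toNat = ∑ A ∈ GS, (p A).toNat := by
    rw [← Finset.sum_sdiff hS]
    have : ∑ A ∈ F \ GS, (p A).toNat = 0 := by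
      refine Finset.sum_eq_zero (fun A hA => ?_)
      rw [Finset.mem_sdiff] at hA
      rw [hbot A hA.1 hA.2]
      rfl
    rw [this, zero_add]
  have h4 : ∑ A ∈ GN, (q A).toNat = ∑ A ∈ GS, (p A).toNat := by
    refine Finset.sum_nbij' i j (fun A hA => (hi A hA).1) (fun A hA => (hj A hA).1)
      (fun A hA => (hi A hA).2) (fun A hA => (hj A hA).2) (fun A hA => ?_)
    rw [hstep A hA]
  have h5 : (F \ GN).card + GN.card = F.card := Finset.card_sdiff_add_card_eq_card hN
  omega

/-- The number of glued faces in the four headings. -/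
theorem IsField.count (H : IsField P σ e c) :
    (gF P σ e c Hd.N).card + (gF P σ e c Hd.S).card + (gF P σ e c Hd.E).card +
      (gF P σ e c Hd.W).card = 2 * (faceF P).card := by
  classical
  have hNS : (gF P σ e c Hd.N).card = (gF P σ e c Hd.S).card := by
    refine Finset.card_nbij' (fun A => nb P σ e A Hd.N) (fun A => nb P σ e A Hd.S)
      (fun A hA => (H.nb_N_S hA).1) (fun A hA => (H.nb_S_N hA).1)
      (fun A hA => (H.nb_N_S hA).2) (fun A hA => (H.nb_S_N hA).2)
  have hsub : ∀ h, gF P σ e c h ⊆ faceF P := fun h => Finset.filter_subset _ _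
  have hE := count_side (faceF P) (gF P σ e c Hd.N) (gF P σ e c Hd.S) (hsub _) (hsub _)
    (fun A => nb P σ e A Hd.N) (fun A => nb P σ e A Hd.S) (fun A hA => H.nb_N_S hA)
    (fun A hA => H.nb_S_N hA) (fun A => c (cr σ e A Hd.S Hd.E)) (fun A => c (cr σ e A Hd.N Hd.E))
    (fun A hA => H.monoE A (mem_faceF.1 hA))
    (fun A hA hn => H.topE A (mem_faceF.1 hA) (fun hc => hn (mem_gF.2 ⟨mem_faceF.1 hA, hc⟩)))
    (fun A hA hn => H.botE A (mem_faceF.1 hA) (fun hc => hn (mem_gF.2 ⟨mem_faceF.1 hA, hc⟩)))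
    (fun A hA => congrArg c (H.north (mem_gF.1 hA).1 (mem_gF.1 hA).2).1)
  have hW := count_side (faceF P) (gF P σ e c Hd.N) (gF P σ e c Hd.S) (hsub _) (hsub _)
    (fun A => nb P σ e A Hd.N) (fun A => nb P σ e A Hd.S) (fun A hA => H.nb_N_S hA)
    (fun A hA => H.nb_S_N hA) (fun A => c (cr σ e A Hd.S Hd.W)) (fun A => c (cr σ e A Hd.N Hd.W))
    (fun A hA => H.monoW A (mem_faceF.1 hA))
    (fun A hA hn => H.topW A (mem_faceF.1 hA) (fun hc => hn (mem_gF.2 ⟨mem_faceF.1 hA, hc⟩)))
    (fun A hA hn => H.botW A (mem_faceF.1 hA) (fun hc => hn (mem_gF.2 ⟨mem_faceF.1 hA, hc⟩)))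
    (fun A hA => congrArg c (H.north (mem_gF.1 hA).1 (mem_gF.1 hA).2).2)
  have eE : (faceF P).filter (fun A => c (cr σ e A Hd.S Hd.E) = false ∧
      c (cr σ e A Hd.N Hd.E) = true) = gF P σ e c Hd.E := by
    ext A
    rw [Finset.mem_filter, mem_gF, mem_faceF]
    rfl
  have eW : (faceF P).filter (fun A => c (cr σ e A Hd.S Hd.W) = false ∧
      c (cr σ e A Hd.N Hd.W) = true) = gF P σ e c Hd.W := by
    ext A
    rw [Finset.mem_filter, mem_gF, mem_faceF]
    rfl
  rw [eE] at hE
  rw [eW] at hW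
  omega

open Classical in
/-- The sides that are not glued. -/
noncomputable def ngF (P : Finset Cube) (σ : Bool) (e : Face → Dir) (c : Cube → Bool) :
    Finset (Face × Dir) := (sideF P).filter (fun s => ¬ GlS P σ e c s)

/-- The cut edges. -/
noncomputable def cutF (P : Finset Cube) (σ : Bool) (e : Face → Dir) (c : Cube → Bool) :
    Finset (Sym2 Cube) := (ngF P σ e c).image (fun s => eg s.1 s.2)

theorem IsField.glS_iff (H : IsField P σ e c) {A : Face} (hA : IsFace P A) (h : Hd) :
    GlS P σ e c (A, dA σ e A h) ↔ Gl P σ e c A h := by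
  constructor
  · rintro ⟨k, h1, h2⟩
    have : h = k := dirH_inj σ _ _ (H.perp A hA) _ _ h1
    rw [this]; exact h2
  · intro hg
    exact ⟨h, rfl, hg⟩

theorem IsField.card_ngF (H : IsField P σ e c) : (ngF P σ e c).card = 2 * (faceF P).card := by
  classical
  have h1 : ((sideF P).filter (fun s => GlS P σ e c s)).card = 2 * (faceF P).card := by
    have h2 : (sideF P).filter (fun s => GlS P σ e c s) =
        (Finset.univ : Finset Hd).biUnion (fun h => (gF P σ e c h).image
          (fun A => (A, dA σ e A h))) := by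
      ext ⟨A, t⟩
      rw [Finset.mem_filter, mem_sideF, Finset.mem_biUnion]
      constructor
      · rintro ⟨⟨h1, h2⟩, h, h3, h4⟩
        simp only at h1 h2 h3 h4
        exact ⟨h, Finset.mem_univ _, Finset.mem_image.2 ⟨A, mem_gF.2 ⟨h1, h4⟩, by rw [← h3]⟩⟩
      · rintro ⟨h, -, h1⟩
        obtain ⟨A', h2, h3⟩ := Finset.mem_image.1 h1
        obtain ⟨h4, h5⟩ := mem_gF.1 h2
        rw [Prod.mk.injEq] at h3
        obtain ⟨rfl, rfl⟩ := h3
        exact ⟨⟨h4, perp_dirH σ _ _ (H.perp _ h4) h⟩, h, rfl, h5⟩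
    rw [h2, Finset.card_biUnion]
    · have h3 : ∀ h : Hd, ((gF P σ e c h).image (fun A => (A, dA σ e A h))).card =
          (gF P σ e c h).card := fun h =>
        Finset.card_image_of_injective _ (fun a b hab => (Prod.mk.inj hab).1)
      have h4 := H.count
      have h5 : (Finset.univ : Finset Hd) = {Hd.E, Hd.N, Hd.W, Hd.S} := by decide
      rw [h5, Finset.sum_insert (by decide), Finset.sum_insert (by decide),
        Finset.sum_insert (by decide), Finset.sum_singleton, h3, h3, h3, h3]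
      omega
    · intro h _ k _ hhk
      rw [Function.onFun, Finset.disjoint_left]
      intro s hs hs'
      obtain ⟨A, hA, rfl⟩ := Finset.mem_image.1 hs
      obtain ⟨B, hB, hB'⟩ := Finset.mem_image.1 hs'
      rw [Prod.mk.injEq] at hB'
      obtain ⟨rfl, hB'⟩ := hB'
      exact hhk (dirH_inj σ _ _ (H.perp _ (mem_gF.1 hB).1) _ _ hB').symm
  have h6 := Finset.card_filter_add_card_filter_not (s := sideF P)
    (p := fun s => GlS P σ e c s)
  have h7 := card_sideF P
  have h8 : (ngF P σ e c).card = ((sideF P).filter (fun s => ¬ GlS P σ e c s)).card := rfl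
  omega

theorem IsField.card_cutF (H : IsField P σ e c) (hman : Man P) :
    (cutF P σ e c).card = (faceF P).card := by
  classical
  have h1 := H.card_ngF
  have h2 := card_image_eg hman (S := ngF P σ e c) (Finset.filter_subset _ _) (by
    intro s hs
    unfold ngF at hs ⊢
    rw [Finset.mem_filter] at hs ⊢
    exact ⟨nu_mem hs.1, fun h => hs.2 ((H.glS_nu_iff hs.1).1 h)⟩)
  have h3 : (cutF P σ e c).card = ((ngF P σ e c).image (fun s => eg s.1 s.2)).card := rfl
  omega

theorem IsField.mem_cutF (H : IsField P σ e c) {ε : Sym2 Cube} :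
    ε ∈ cutF P σ e c ↔ CutE P σ e c ε := by
  classical
  unfold cutF ngF CutE
  rw [Finset.mem_image]
  constructor
  · rintro ⟨⟨A, t⟩, hs, rfl⟩
    rw [Finset.mem_filter, mem_sideF] at hs
    obtain ⟨⟨h1, h2⟩, h3⟩ := hs
    simp only at h1 h2
    obtain ⟨h, rfl⟩ := exists_hd σ _ _ _ (H.perp A h1) h2
    refine ⟨A, h, h1, fun hg => h3 ((H.glS_iff h1 h).2 hg), ?_⟩
    exact eg_eq_edg (H.perp A h1) h
  · rintro ⟨A, h, hA, hg, rfl⟩
    refine ⟨(A, dA σ e A h), ?_, eg_eq_edg (H.perp A hA) h⟩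
    rw [Finset.mem_filter, mem_sideF]
    exact ⟨⟨hA, perp_dirH σ _ _ (H.perp _ hA) h⟩, fun hs => hg ((H.glS_iff hA h).1 hs)⟩

/-- The columns are connected. -/
theorem IsField.conn_of_euler (H : IsField P σ e c) (hman : Man P) (hsurf : SurfConn P)
    (heuler : (vertF P).card + (faceF P).card = (edgeF P).card + 2)
    (hcol : ∀ p ∈ vertF P, ∀ q ∈ vertF P, c p = c q →
      ReflTransGen (fun x y => CutE P σ e c s(x, y)) p q) :
    ∀ A B, IsFace P A → IsFace P B →
      EqvGen (fun C D => Up P σ e (UU P σ e) C D ∨ Cr P σ e (XX P σ e c) C D) A B := by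
  classical
  intro A B hA hB
  have hE := card_edgeF hman
  have hcard : (cutF P σ e c).card + 2 = (vertF P).card := by
    rw [H.card_cutF hman]; omega
  have hsub : cutF P σ e c ⊆ edgeF P := by
    unfold cutF ngF edgeF
    exact Finset.image_subset_image (Finset.filter_subset _ _)
  have hcr : ∀ D, IsFace P D → ∀ h, cr σ e D h Hd.E ∈ vertF P ∨ (h = Hd.E ∨ h = Hd.W) := by
    intro D hD h
    have key : ∀ (σ : Bool) (d e : Dir), Dir.perp d e = true → ∀ h : Hd, h = Hd.N ∨ h = Hd.S →
        dirH σ d e Hd.E = Dir.cross d (dirH σ d e h) ∨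
        dirH σ d e Hd.E = (Dir.cross d (dirH σ d e h)).neg := by decide
    cases h with
    | E => exact Or.inr (Or.inl rfl)
    | W => exact Or.inr (Or.inr rfl)
    | N =>
      left
      unfold cr
      rw [← cnr_eq_crn]
      exact cnr_mem_vertF hD (perp_dirH σ _ _ (H.perp D hD) Hd.N)
        (key σ _ _ (H.perp D hD) Hd.N (Or.inl rfl))
    | S =>
      left
      unfold cr
      rw [← cnr_eq_crn]
      exact cnr_mem_vertF hD (perp_dirH σ _ _ (H.perp D hD) Hd.S)
        (key σ _ _ (H.perp D hD) Hd.S (Or.inr rfl))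
  -- a white vertex
  obtain ⟨w, hw, hwc⟩ : ∃ w ∈ vertF P, c w = true := by
    obtain ⟨k, hk⟩ := H.noRing A hA
    have hF : ∀ k : ℕ, IsFace P ((fun B => nb P σ e B Hd.N)^[k] A) := by
      intro k
      induction k with
      | zero => exact hA
      | succ k ih => rw [Function.iterate_succ_apply']; exact isFace_nbr ih
    refine ⟨_, (hcr _ (hF k) Hd.N).resolve_right (by decide), H.topE _ (hF k) hk⟩
  -- a black vertex
  obtain ⟨b, hb, hbc⟩ : ∃ b ∈ vertF P, c b = false := by
    obtain ⟨M, -, hbot⟩ := H.exists_bot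
    obtain ⟨D, hD, hDc, -⟩ := hbot _ A hA rfl
    exact ⟨_, (hcr _ hD Hd.S).resolve_right (by decide), H.botE _ hD hDc⟩
  let X : Finset Face := (faceF P).filter (fun D =>
    EqvGen (fun C D => Up P σ e (UU P σ e) C D ∨ Cr P σ e (XX P σ e c) C D) A D)
  have hX := dual_connected hman hsurf hsub hcard c
    (fun p hp q hq hpq => by
      have := hcol p hp q hq hpq
      exact ReflTransGen.mono (fun x y h => H.mem_cutF.2 h) _ _ this) hw hb (by rw [hwc, hbc]; decide)
    (X := X) ⟨A, Finset.mem_filter.2 ⟨mem_faceF.2 hA, EqvGen.refl _⟩, hA⟩ (by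
      rintro ⟨C, t⟩ hs hCX hcut
      have hC := (mem_sideF.1 hs).1
      have hgl : GlS P σ e c (C, t) := by
        by_contra hn
        refine hcut ?_
        unfold cutF ngF
        exact Finset.mem_image_of_mem (fun s : Face × Dir => eg s.1 s.2)
          (Finset.mem_filter.2 ⟨hs, hn⟩)
      obtain ⟨h, h1, h2⟩ := hgl
      simp only at h1 h2 hC
      have h3 : (nu P (C, t)).1 = nb P σ e C h := by
        unfold nu
        simp only
        rw [h1]
        rfl
      rw [h3]
      refine Finset.mem_filter.2 ⟨mem_faceF.2 (isFace_nbr hC), ?_⟩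
      refine (Finset.mem_filter.1 hCX).2.trans _ _ _ ?_
      cases h with
      | N => exact EqvGen.rel _ _ (Or.inl ⟨⟨hC, h2⟩, rfl⟩)
      | S =>
        obtain ⟨k1, k2⟩ := Cmp.back hC (H.perp C hC) h2
        exact EqvGen.symm _ _ (EqvGen.rel _ _ (Or.inl ⟨⟨isFace_nbr hC, k1⟩, k2⟩))
      | E => exact EqvGen.rel _ _ (Or.inr ⟨⟨hC, h2.1, h2.2⟩, rfl⟩)
      | W =>
        obtain ⟨k0, k3⟩ := H.gl_nb hC h2
        obtain ⟨k1, k2⟩ := Cmp.back hC (H.perp C hC) k0
        exact EqvGen.symm _ _ (EqvGen.rel _ _ (Or.inr ⟨⟨isFace_nbr hC, k3.1, k3.2⟩, k2⟩)))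
  exact (Finset.mem_filter.1 (hX B hB)).2

/-- A coloured direction field with connected columns is a closed ladder. -/
theorem IsField.isLadder_of_conn (H : IsField P σ e c)
    (hconn : ∀ A B, IsFace P A → IsFace P B →
      EqvGen (fun C D => Up P σ e (UU P σ e) C D ∨ Cr P σ e (XX P σ e c) C D) A B) :
    IsLadder P σ e (UU P σ e) (XX P σ e c) (fun A => -(hgt P σ e A : ℤ)) := by
  have hout : ∀ A, IsFace P A → ∃ B ∈ XX P σ e c, EqvGen (Up P σ e (UU P σ e)) A B := by
    intro A hA
    obtain ⟨M, -, hb⟩ := H.exists_bot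
    obtain ⟨B, hB, hBc, hAB⟩ := hb _ A hA rfl
    obtain ⟨D, hD, hBD⟩ := H.exists_out _ B hB rfl (H.botE B hB hBc)
    exact ⟨D, hD, hAB.trans _ _ _ hBD⟩
  constructor
  · exact H.perp
  · exact fun A hA => hA.1
  · exact fun A hA => hA.2
  · exact fun A hA => hA.1
  · exact fun A hA => H.cmpE hA.1 hA.2.1 hA.2.2
  · intro A hA
    have := H.hgt_step hA.1 hA.2
    change -(hgt P σ e (nb P σ e A Hd.N) : ℤ) = -(hgt P σ e A : ℤ) + 1
    rw [this]
    push_cast
    ring
  · exact hout
  · intro A hA B hB hAB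
    rcases eqvGen_comparable up_func H.up_inj hAB with h | h
    · rcases H.white_up h hA.1 with h1 | ⟨h1, -⟩
      · exact h1
      · exact absurd ((h1 hA.2.2).symm.trans hB.2.1) (by decide)
    · rcases H.white_up h hB.1 with h1 | ⟨h1, -⟩
      · exact h1.symm
      · exact absurd ((h1 hB.2.2).symm.trans hA.2.1) (by decide)
  · intro A hA B hB hAB
    have hcA := H.cmpE hA.1 hA.2.1 hA.2.2
    have hcB := H.cmpE hB.1 hB.2.1 hB.2.2
    obtain ⟨a1, a2⟩ := H.east hA.1 hcA
    obtain ⟨b1, b2⟩ := H.east hB.1 hcB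
    have hFA : IsFace P (nb P σ e A Hd.E) := isFace_nbr hA.1
    have hFB : IsFace P (nb P σ e B Hd.E) := isFace_nbr hB.1
    have heq : nb P σ e A Hd.E = nb P σ e B Hd.E := by
      rcases eqvGen_comparable up_func H.up_inj hAB with h | h
      · rcases H.white_up h hFA with h1 | ⟨-, h1⟩
        · exact h1
        · rw [a2, b1] at h1
          exact absurd ((h1 hA.2.2).symm.trans hB.2.1) (by decide)
      · rcases H.white_up h hFB with h1 | ⟨-, h1⟩
        · exact h1.symm
        · rw [b2, a1] at h1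
          exact absurd ((h1 hB.2.2).symm.trans hA.2.1) (by decide)
    have e1 := (Cmp.back hA.1 (H.perp A hA.1) hcA).2
    have e2 := (Cmp.back hB.1 (H.perp B hB.1) hcB).2
    rw [heq] at e1
    exact e1.symm.trans e2
  · exact hconn

/-- **Ladder theorem, Euler form.** Let the boundary surface of `P` be connected, with every edge
on two squares and Euler characteristic two, and let a coloured direction field be given on it.
If any two surface vertices of the same colour are joined by cut edges, then `P` has an edge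
unfolding. -/
theorem IsField.unfolding_euler (hE : EdgeOK P) (hsurf : SurfConn P)
    (heuler : (vertF P).card + (faceF P).card = (edgeF P).card + 2) (H : IsField P σ e c)
    (hcol : ∀ p ∈ vertF P, ∀ q ∈ vertF P, c p = c q →
      ReflTransGen (fun x y => CutE P σ e c s(x, y)) p q) : HasEdgeUnfolding P :=
  (H.isLadder_of_conn (H.conn_of_euler hE hsurf heuler hcol)).unfolding hE

end Pool.Agent.Helper84.LD
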