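import Pool.Agent.Helper16.LD.NetOf

/-!
# The boundary surface of a polycube as a quadrangulation (project LD, MP_409f7f_co)

Vertices, edges and faces of the boundary surface; every edge has exactly two sides, every vertex
of a face lies on exactly two of its sides.
-/

namespace Pool.Agent.Helper16.LD

open Pool.Agent.Helper17.UF

/-- The positive part of a direction. -/
def up : Dir → Cube
  | Dir.px => (1, 0, 0) | Dir.nx => 0 | Dir.py => (0, 1, 0) | Dir.ny => 0
  | Dir.pz => (0, 0, 1) | Dir.nz => 0

/-- The corner of the square of `A` in the directions `t` and `w`. -/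
def cnr (A : Face) (t w : Dir) : Cube := A.1 + (up A.2 + up t + up w)

/-- The two end points of the side `t` of the square of `A`. -/
def eg (A : Face) (t : Dir) : Sym2 Cube :=
  s(cnr A t (Dir.cross A.2 t), cnr A t (Dir.cross A.2 t).neg)

theorem cnr_comm (A : Face) (t w : Dir) : cnr A t w = cnr A w t := by
  unfold cnr
  have : up A.2 + up t + up w = up A.2 + up w + up t := by abel
  rw [this]

theorem vec_up : ∀ t : Dir, t.vec + up t.neg = up t := by decide

/-- Neighbouring squares have the same end points on the common side. -/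
theorem cnr_nbr (P : Finset Cube) (A : Face) (t w : Dir) :
    cnr (nbr P A t).1 (nbr P A t).2 w = cnr A t w := by
  obtain ⟨v, d⟩ := A
  have h1 := vec_up t
  have h2 := vec_up d
  rcases nbr_cases P v d t with ⟨-, e⟩ | ⟨-, -, e⟩ | ⟨-, -, e⟩
  · rw [e]
    simp only [cnr]
    rw [← h1, ← h2]; abel
  · rw [e]
    simp only [cnr]
    rw [← h1]; abel
  · rw [e]
    simp only [cnr]
    abel

theorem cross_nbr {P : Finset Cube} {A : Face} {t : Dir} (h : Dir.perp A.2 t = true) :
    Dir.cross (nbr P A t).1.2 (nbr P A t).2 = (Dir.cross A.2 t).neg := by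
  obtain ⟨v, d⟩ := A
  have k1 : ∀ (d t : Dir), Dir.perp d t = true →
      Dir.cross t.neg d.neg = (Dir.cross d t).neg ∧ Dir.cross d t.neg = (Dir.cross d t).neg ∧
      Dir.cross t d = (Dir.cross d t).neg := by decide
  obtain ⟨a, b, c⟩ := k1 d t h
  rcases nbr_cases P v d t with ⟨-, e⟩ | ⟨-, -, e⟩ | ⟨-, -, e⟩
  · rw [e]; exact a
  · rw [e]; exact b
  · rw [e]; exact c

theorem eg_nbr {P : Finset Cube} {A : Face} {t : Dir} (h : Dir.perp A.2 t = true) :
    eg (nbr P A t).1 (nbr P A t).2 = eg A t := by
  unfold eg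
  rw [cross_nbr h, cnr_nbr, cnr_nbr, Dir.neg_neg, Sym2.eq_swap]

theorem perp_nbr' {P : Finset Cube} {A : Face} {t : Dir} (h : Dir.perp A.2 t = true) :
    Dir.perp (nbr P A t).1.2 (nbr P A t).2 = true := perp_nbr (v := A.1) (d := A.2) h

theorem face_nbr {P : Finset Cube} {A : Face} {t : Dir} (hA : IsFace P A) :
    IsFace P (nbr P A t).1 := by
  obtain ⟨v, d⟩ := A
  obtain ⟨h1, h2⟩ := hA
  simp only at h1 h2
  rcases nbr_cases P v d t with ⟨a, e⟩ | ⟨a, b, e⟩ | ⟨a, b, e⟩
  · rw [e]
    refine ⟨a, ?_⟩
    simp only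
    rw [Dir.vec_neg, show v + t.vec + d.vec + -t.vec = v + d.vec by abel]
    exact h2
  · rw [e]
    exact ⟨b, a⟩
  · rw [e]
    exact ⟨h1, b⟩

theorem nbr_nbr {P : Finset Cube} {A : Face} {t : Dir} (hA : IsFace P A) :
    nbr P (nbr P A t).1 (nbr P A t).2 = (A, t) := by
  obtain ⟨v, d⟩ := A
  obtain ⟨h1, h2⟩ := hA
  simp only at h1 h2
  rcases nbr_cases P v d t with ⟨a, e⟩ | ⟨a, b, e⟩ | ⟨a, b, e⟩
  · rw [e]
    have c : v + t.vec + d.vec + d.neg.vec + t.neg.vec = v := by
      rw [Dir.vec_neg, Dir.vec_neg]; abel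
    simp only [nbr, c, h1, if_true, Dir.neg_neg]
  · rw [e]
    have c1 : v + t.vec + t.neg.vec + d.vec = v + d.vec := by
      rw [Dir.vec_neg]; abel
    have c2 : v + t.vec + t.neg.vec = v := by rw [Dir.vec_neg]; abel
    simp only [nbr, c2, h1, h2, if_true, if_false, Dir.neg_neg]
  · rw [e]
    have c1 : v + d.vec + t.vec = v + t.vec + d.vec := by abel
    simp only [nbr, c1, a, h2, if_false]

theorem nbr_ne {P : Finset Cube} {A : Face} {t : Dir} (h : Dir.perp A.2 t = true) :
    (nbr P A t).1 ≠ A := by
  obtain ⟨v, d⟩ := A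
  have k1 : ∀ (d t : Dir), Dir.perp d t = true → t.neg ≠ d ∧ t ≠ d := by decide
  have k2 : ∀ t : Dir, t.vec ≠ 0 := by decide
  obtain ⟨a, b⟩ := k1 d t h
  rcases nbr_cases P v d t with ⟨-, e⟩ | ⟨-, -, e⟩ | ⟨-, -, e⟩
  · rw [e]
    intro hc
    exact a (congrArg Prod.snd hc)
  · rw [e]
    intro hc
    have := congrArg Prod.fst hc
    simp only at this
    exact k2 t (by simpa using this)
  · rw [e]
    intro hc
    exact b (congrArg Prod.snd hc)

/-- The possible relative positions of two sides with the same end points. -/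
def csB (d t d' t' : Dir) (w : Cube) : Bool :=
  (decide (w = 0) && (decide (d' = d) && decide (t' = t))) ||
  ((decide (w = 0) && (decide (d' = t) && decide (t' = d))) ||
  ((decide (w = t.vec) && (decide (d' = d) && decide (t' = t.neg))) ||
  ((decide (w = t.vec + d.vec) && (decide (d' = t.neg) && decide (t' = d.neg))) ||
  (decide (w = d.vec) ||
  ((decide (w = t.vec) && decide (d' = t.neg)) ||
  (decide (w = t.vec + d.vec) && decide (d' = d.neg)))))))

theorem csB_key : ∀ d t d' t' : Dir, Dir.perp d t = true → Dir.perp d' t' = true →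
    (up d + up t + up (Dir.cross d t) - (up d' + up t' + up (Dir.cross d' t')) =
      up d + up t + up (Dir.cross d t).neg - (up d' + up t' + up (Dir.cross d' t').neg) →
      csB d t d' t'
        (up d + up t + up (Dir.cross d t) - (up d' + up t' + up (Dir.cross d' t'))) = true) ∧
    (up d + up t + up (Dir.cross d t) - (up d' + up t' + up (Dir.cross d' t').neg) =
      up d + up t + up (Dir.cross d t).neg - (up d' + up t' + up (Dir.cross d' t')) →
      csB d t d' t'
        (up d + up t + up (Dir.cross d t) - (up d' + up t' + up (Dir.cross d' t').neg)) =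
        true) := by
  decide

/-- Two sides with the same end points. -/
theorem eg_eq_cases (d t d' t' : Dir) (h : Dir.perp d t = true) (h' : Dir.perp d' t' = true)
    (w : Cube) (hw : (up d + up t + up (Dir.cross d t) =
        w + (up d' + up t' + up (Dir.cross d' t')) ∧
      up d + up t + up (Dir.cross d t).neg = w + (up d' + up t' + up (Dir.cross d' t').neg)) ∨
      (up d + up t + up (Dir.cross d t) = w + (up d' + up t' + up (Dir.cross d' t').neg) ∧
      up d + up t + up (Dir.cross d t).neg = w + (up d' + up t' + up (Dir.cross d' t')))) :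
    (w = 0 ∧ d' = d ∧ t' = t) ∨ (w = 0 ∧ d' = t ∧ t' = d) ∨ (w = t.vec ∧ d' = d ∧ t' = t.neg) ∨
    (w = t.vec + d.vec ∧ d' = t.neg ∧ t' = d.neg) ∨ (w = d.vec) ∨
    (w = t.vec ∧ d' = t.neg) ∨ (w = t.vec + d.vec ∧ d' = d.neg) := by
  have key : csB d t d' t' w = true := by
    obtain ⟨k1, k2⟩ := csB_key d t d' t' h h'
    rcases hw with ⟨a, b⟩ | ⟨a, b⟩
    · have e : w = up d + up t + up (Dir.cross d t) - (up d' + up t' + up (Dir.cross d' t')) := by
        rw [a]; abel
      rw [e]
      refine k1 ?_
      rw [a, b]; abel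
    · have e : w = up d + up t + up (Dir.cross d t) -
          (up d' + up t' + up (Dir.cross d' t').neg) := by
        rw [a]; abel
      rw [e]
      refine k2 ?_
      rw [a, b]; abel
  simpa only [csB, Bool.or_eq_true, Bool.and_eq_true, decide_eq_true_eq] using key

/-- Every edge of the boundary has only the two sides that `nbr` exchanges. -/
theorem eg_inj {P : Finset Cube} (hman : Man P) {A B : Face} {t u : Dir} (hA : IsFace P A)
    (hB : IsFace P B) (ht : Dir.perp A.2 t = true) (hu : Dir.perp B.2 u = true)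
    (h : eg A t = eg B u) : (B, u) = (A, t) ∨ (B, u) = nbr P A t := by
  obtain ⟨v, d⟩ := A
  obtain ⟨v', d'⟩ := B
  obtain ⟨hv, hvd⟩ := hA
  obtain ⟨hv', hvd'⟩ := hB
  simp only at hv hvd hv' hvd' ht hu
  have hc := eg_eq_cases d t d' u ht hu (v' - v) (by
    unfold eg at h
    rw [Sym2.eq_iff] at h
    simp only [cnr] at h
    rcases h with ⟨a, b⟩ | ⟨a, b⟩
    · left
      constructor
      · have := congrArg (fun z => z - v) a
        simp only [add_sub_cancel_left] at this
        rw [this]; abel
      · have := congrArg (fun z => z - v) b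
        simp only [add_sub_cancel_left] at this
        rw [this]; abel
    · right
      constructor
      · have := congrArg (fun z => z - v) a
        simp only [add_sub_cancel_left] at this
        rw [this]; abel
      · have := congrArg (fun z => z - v) b
        simp only [add_sub_cancel_left] at this
        rw [this]; abel)
  have hvd2 : v + t.vec + d.vec = v + d.vec + t.vec := by abel
  have m1 := hman v hv d t ht hvd
  rcases hc with ⟨w, e1, e2⟩ | ⟨w, e1, e2⟩ | ⟨w, e1, e2⟩ | ⟨w, e1, e2⟩ | w | ⟨w, e1⟩ | ⟨w, e1⟩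
  · left
    have : v' = v := by rw [sub_eq_zero] at w; exact w
    rw [this, e1, e2]
  · right
    have e3 : v' = v := by rw [sub_eq_zero] at w; exact w
    rw [e3, e1] at hvd'
    rw [e3, e1, e2]
    rcases nbr_cases P v d t with ⟨a, e⟩ | ⟨a, b, e⟩ | ⟨a, b, e⟩
    · exact absurd (hvd2 ▸ a) (m1 hvd')
    · exact absurd b hvd'
    · rw [e]
  · right
    have e3 : v' = v + t.vec := by rw [← w]; abel
    rw [e3] at hv'
    rw [e3, e1] at hvd'
    rw [e3, e1, e2]
    rcases nbr_cases P v d t with ⟨a, e⟩ | ⟨a, b, e⟩ | ⟨a, b, e⟩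
    · exact absurd a hvd'
    · rw [e]
    · exact absurd hv' b
  · right
    have e3 : v' = v + t.vec + d.vec := by
      have := congrArg (fun z => z + v) w
      simp only [sub_add_cancel] at this
      rw [this]; abel
    rw [e3] at hv'
    rw [e3, e1, e2]
    rcases nbr_cases P v d t with ⟨a, e⟩ | ⟨a, b, e⟩ | ⟨a, b, e⟩
    · rw [e]
    · exact absurd hv' a
    · exact absurd hv' a
  · exfalso
    have e3 : v' = v + d.vec := by rw [← w]; abel
    rw [e3] at hv'
    exact hvd hv'
  · exfalso
    have e3 : v' = v + t.vec := by rw [← w]; abel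
    rw [e3, e1, Dir.vec_neg, show v + t.vec + -t.vec = v by abel] at hvd'
    exact hvd' hv
  · exfalso
    have e3 : v' = v + t.vec + d.vec := by
      have := congrArg (fun z => z + v) w
      simp only [sub_add_cancel] at this
      rw [this]; abel
    rw [e3] at hv'
    rw [e3, e1, Dir.vec_neg, show v + t.vec + d.vec + -d.vec = v + t.vec by abel] at hvd'
    exact m1 hvd' (hvd2 ▸ hv')

end Pool.Agent.Helper16.LD
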